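import Pool.Agent.R804.RbLim.Main

/-!
# Limits of the extremal rainbow and monochromatic proportions exist (MP_0bef22_co, Q1 and Q2)

For all positive integers `a`, `b`, `c` the maximal proportion of rainbow solutions of
`a x + b y = c z` over the 3-colorings of `[n]` converges as `n` tends to infinity, and so does the
minimal proportion of monochromatic solutions.
-/

set_option autoImplicit false

open Finset Filter Topology

namespace Pool.Agent.Results.MP_0bef22_co.Limits

/-- The ordered solutions `(x, y, z)` of `a x + b y = c z` with `x, y, z` in `[n] = {1, …, n}`. -/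
def sols (a b c n : ℕ) : Finset (ℕ × ℕ × ℕ) :=
  (Finset.Icc 1 n ×ˢ Finset.Icc 1 n ×ˢ Finset.Icc 1 n).filter
    (fun p => a * p.1 + b * p.2.1 = c * p.2.2)

/-- `f` maps `[n]` onto the set of the three colors: the restriction of `f` to `[n]` is a
3-coloring of `[n]`. -/
def IsColoring (n : ℕ) (f : ℕ → Fin 3) : Prop := Set.SurjOn f (Set.Icc 1 n) Set.univ

/-- The proportion of rainbow solutions: the coordinates have pairwise distinct colors. -/
noncomputable def rb (a b c n : ℕ) (f : ℕ → Fin 3) : ℝ :=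
  (((sols a b c n).filter (fun p => f p.1 ≠ f p.2.1 ∧ f p.1 ≠ f p.2.2 ∧ f p.2.1 ≠ f p.2.2)).card
    : ℝ) / ((sols a b c n).card : ℝ)

/-- The proportion of monochromatic solutions. -/
noncomputable def mono (a b c n : ℕ) (f : ℕ → Fin 3) : ℝ :=
  (((sols a b c n).filter (fun p => f p.1 = f p.2.1 ∧ f p.1 = f p.2.2)).card : ℝ) /
    ((sols a b c n).card : ℝ)

/-- The proportions of rainbow solutions over all 3-colorings of `[n]`. -/
def rbSet (a b c n : ℕ) : Set ℝ := {r | ∃ f : ℕ → Fin 3, IsColoring n f ∧ r = rb a b c n f}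

/-- The proportions of monochromatic solutions over all 3-colorings of `[n]`. -/
def monoSet (a b c n : ℕ) : Set ℝ := {r | ∃ f : ℕ → Fin 3, IsColoring n f ∧ r = mono a b c n f}

/-- The maximal proportion of rainbow solutions over all 3-colorings of `[n]`. -/
noncomputable def rbMax (a b c n : ℕ) : ℝ := sSup (rbSet a b c n)

/-- The minimal proportion of monochromatic solutions over all 3-colorings of `[n]`. -/
noncomputable def monoMin (a b c n : ℕ) : ℝ := sInf (monoSet a b c n)

/-! ### The proof -/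

open Pool.Agent.R804.RbLim

/-- The general weighted proportion. -/
noncomputable def val (Φ : Fin 3 → Fin 3 → Fin 3 → ℝ) (a b c n : ℕ) (f : ℕ → Fin 3) : ℝ :=
  (∑ p ∈ sols a b c n, Φ (f p.1) (f p.2.1) (f p.2.2)) / ((sols a b c n).card : ℝ)

theorem sum_sols (a b c n : ℕ) (φ : ℕ → ℕ → ℕ → ℝ) :
    ∑ p ∈ sols a b c n, φ p.1 p.2.1 p.2.2
      = ∑ y ∈ T a b c n 0, φ (y 0).toNat (y 1).toNat (y 2).toNat := by
  refine Finset.sum_bij' (fun p _ => (![(p.1 : ℤ), (p.2.1 : ℤ), (p.2.2 : ℤ)] : Fin 3 → ℤ))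
    (fun y _ => ((y 0).toNat, (y 1).toNat, (y 2).toNat)) ?_ ?_ ?_ ?_ ?_
  · intro p hp
    simp only [sols, Finset.mem_filter, Finset.mem_product, Finset.mem_Icc] at hp
    obtain ⟨⟨h1, h2, h3⟩, h4⟩ := hp
    rw [mem_T]
    refine ⟨fun k => ?_, ?_⟩
    · fin_cases k
      · simp; omega
      · simp; omega
      · simp; omega
    · simp only [E, Fin.isValue, Matrix.cons_val_zero, Matrix.cons_val_one, Matrix.cons_val]
      have : (a : ℤ) * p.1 + b * p.2.1 = c * p.2.2 := by exact_mod_cast h4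
      linarith
  · intro y hy
    rw [mem_T] at hy
    obtain ⟨h1, h2⟩ := hy
    have h3 := h1 0
    have h4 := h1 1
    have h5 := h1 2
    simp only [sols, Finset.mem_filter, Finset.mem_product, Finset.mem_Icc]
    refine ⟨⟨by omega, by omega, by omega⟩, ?_⟩
    have e0 : (((y 0).toNat : ℕ) : ℤ) = y 0 := Int.toNat_of_nonneg (by omega)
    have e1 : (((y 1).toNat : ℕ) : ℤ) = y 1 := Int.toNat_of_nonneg (by omega)
    have e2 : (((y 2).toNat : ℕ) : ℤ) = y 2 := Int.toNat_of_nonneg (by omega)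
    have : (a : ℤ) * ((y 0).toNat : ℕ) + b * ((y 1).toNat : ℕ) = c * ((y 2).toNat : ℕ) := by
      rw [e0, e1, e2]
      unfold E at h2
      linarith
    exact_mod_cast this
  · intro p _
    simp
  · intro y hy
    rw [mem_T] at hy
    funext k
    have h := (hy.1 k).1
    fin_cases k
    · simp at h ⊢; omega
    · simp at h ⊢; omega
    · simp at h ⊢; omega
  · intro p _
    simp

theorem card_sols (a b c n : ℕ) : (sols a b c n).card = (T a b c n 0).card := by
  have h := sum_sols a b c n (fun _ _ _ => 1)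
  simp only [Finset.sum_const, nsmul_eq_mul, mul_one] at h
  exact_mod_cast h

theorem val_eq (Φ : Fin 3 → Fin 3 → Fin 3 → ℝ) (a b c n : ℕ) (f : ℕ → Fin 3) :
    val Φ a b c n f = S a b c Φ n (fun z => f z.toNat) / (T a b c n 0).card := by
  unfold val S
  rw [sum_sols a b c n (fun x y z => Φ (f x) (f y) (f z)), card_sols]

theorem val_abs_le {Φ : Fin 3 → Fin 3 → Fin 3 → ℝ} (hΦ : ∀ i j k, |Φ i j k| ≤ 1) (a b c n : ℕ)
    (f : ℕ → Fin 3) : |val Φ a b c n f| ≤ 1 := by
  rw [val_eq, abs_div, Nat.abs_cast]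
  exact div_le_one_of_le₀ (S_abs_le a b c hΦ n _) (Nat.cast_nonneg _)

/-- Reduction to coprime coefficients. -/
theorem exists_reduced {a b c : ℤ} (ha : 0 < a) (hb : 0 < b) (hc : 0 < c) :
    ∃ a' b' c' : ℤ, 0 < a' ∧ 0 < b' ∧ 0 < c' ∧ (∃ τ, E a' b' c' τ = 1) ∧
      ∀ n, T a b c n 0 = T a' b' c' n 0 := by
  set g : ℤ := (Int.gcd a b : ℤ) with hg
  set d : ℤ := (Int.gcd g c : ℤ) with hd
  have h1 : g = a * Int.gcdA a b + b * Int.gcdB a b := Int.gcd_eq_gcd_ab a b
  have h2 : d = g * Int.gcdA g c + c * Int.gcdB g c := Int.gcd_eq_gcd_ab g c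
  have hd0 : 0 < d := by
    have : d ≠ 0 := by
      intro h
      have h3 : (d : ℤ) ∣ c := Int.gcd_dvd_right g c
      rw [h, zero_dvd_iff] at h3
      exact hc.ne' h3
    have h4 : 0 ≤ d := Int.natCast_nonneg _
    omega
  have hdg : d ∣ g := Int.gcd_dvd_left g c
  obtain ⟨a', ha'⟩ : d ∣ a := hdg.trans (Int.gcd_dvd_left a b)
  obtain ⟨b', hb'⟩ : d ∣ b := hdg.trans (Int.gcd_dvd_right a b)
  obtain ⟨c', hc'⟩ : d ∣ c := Int.gcd_dvd_right g c
  refine ⟨a', b', c', ?_, ?_, ?_, ?_, ?_⟩
  · rw [ha'] at ha; exact (mul_pos_iff_of_pos_left hd0).mp ha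
  · rw [hb'] at hb; exact (mul_pos_iff_of_pos_left hd0).mp hb
  · rw [hc'] at hc; exact (mul_pos_iff_of_pos_left hd0).mp hc
  · set x := Int.gcdA a b
    set y := Int.gcdB a b
    set u := Int.gcdA g c
    set v := Int.gcdB g c
    refine ⟨![x * u, y * u, -v], ?_⟩
    simp only [E, Fin.isValue, Matrix.cons_val_zero, Matrix.cons_val_one, Matrix.cons_val]
    have h5 : d * (a' * (x * u) + b' * (y * u) - c' * -v) = d * 1 := by
      calc d * (a' * (x * u) + b' * (y * u) - c' * -v)
          = ((d * a') * x + (d * b') * y) * u + (d * c') * v := by ring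
        _ = (a * x + b * y) * u + c * v := by rw [← ha', ← hb', ← hc']
        _ = g * u + c * v := by rw [← h1]
        _ = d * 1 := by rw [← h2, mul_one]
    exact mul_left_cancel₀ hd0.ne' h5
  · intro n
    ext y
    rw [mem_T, mem_T]
    have h6 : E a b c y = d * E a' b' c' y := by
      unfold E
      rw [ha', hb', hc']
      ring
    rw [h6]
    constructor
    · rintro ⟨h7, h8⟩
      exact ⟨h7, (mul_eq_zero.mp h8).resolve_left hd0.ne'⟩
    · rintro ⟨h7, h8⟩
      exact ⟨h7, by rw [h8, mul_zero]⟩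

/-- A sequence with an asymptotic monotonicity converges. -/
theorem tendsto_of_almost_mono {x : ℕ → ℝ} (hb : ∀ n, |x n| ≤ 1)
    (h : ∀ ε : ℝ, 0 < ε → ∃ n0 : ℕ, ∀ n, n0 ≤ n → ∃ N0 : ℕ, ∀ N, N0 ≤ N → x n - ε ≤ x N) :
    ∃ L : ℝ, Tendsto x atTop (𝓝 L) := by
  have hbdd : IsBoundedUnder (· ≤ ·) atTop x :=
    isBoundedUnder_of ⟨1, fun n => (abs_le.mp (hb n)).2⟩
  have hbdd' : IsBoundedUnder (· ≥ ·) atTop x :=
    isBoundedUnder_of ⟨-1, fun n => (abs_le.mp (hb n)).1⟩
  refine ⟨limsup x atTop, ?_⟩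
  rw [tendsto_order]
  constructor
  · intro y hy
    obtain ⟨n0, hn0⟩ := h ((limsup x atTop - y) / 3) (by linarith)
    have hfreq : ∃ᶠ n in atTop, limsup x atTop - (limsup x atTop - y) / 3 < x n :=
      frequently_lt_of_lt_limsup (hbdd'.isCoboundedUnder_le) (by linarith)
    obtain ⟨n, hn, hn'⟩ := hfreq.forall_exists_of_atTop n0
    obtain ⟨N0, hN0⟩ := hn0 n hn
    filter_upwards [eventually_ge_atTop N0] with N hN
    have := hN0 N hN
    linarith
  · intro y hy
    exact eventually_lt_of_limsup_lt hy hbdd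

/-- The extremal weighted proportion. -/
noncomputable def vmax (Φ : Fin 3 → Fin 3 → Fin 3 → ℝ) (a b c n : ℕ) : ℝ :=
  sSup {r | ∃ f : ℕ → Fin 3, IsColoring n f ∧ r = val Φ a b c n f}

theorem exists_coloring {n : ℕ} (hn : 3 ≤ n) : ∃ f : ℕ → Fin 3, IsColoring n f := by
  refine ⟨fun x => if x = 1 then 0 else if x = 2 then 1 else 2, ?_⟩
  intro i _
  fin_cases i
  · exact ⟨1, ⟨le_rfl, by omega⟩, by simp⟩
  · exact ⟨2, ⟨by omega, by omega⟩, by simp⟩
  · exact ⟨3, ⟨by omega, by omega⟩, by simp⟩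

theorem vmax_tendsto {Φ : Fin 3 → Fin 3 → Fin 3 → ℝ} (hΦ : ∀ i j k, |Φ i j k| ≤ 1) {a b c : ℕ}
    (ha : 0 < a) (hb : 0 < b) (hc : 0 < c) : ∃ L : ℝ, Tendsto (vmax Φ a b c) atTop (𝓝 L) := by
  have hbd : ∀ n, BddAbove {r | ∃ f : ℕ → Fin 3, IsColoring n f ∧ r = val Φ a b c n f} := by
    intro n
    refine ⟨1, ?_⟩
    rintro r ⟨f, _, rfl⟩
    exact (abs_le.mp (val_abs_le hΦ a b c n f)).2
  have hne : ∀ n, 3 ≤ n →
      {r | ∃ f : ℕ → Fin 3, IsColoring n f ∧ r = val Φ a b c n f}.Nonempty := by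
    intro n hn
    obtain ⟨f, hf⟩ := exists_coloring hn
    exact ⟨_, f, hf, rfl⟩
  refine tendsto_of_almost_mono ?_ ?_
  · intro n
    rw [abs_le]
    by_cases hs : {r | ∃ f : ℕ → Fin 3, IsColoring n f ∧ r = val Φ a b c n f}.Nonempty
    · constructor
      · obtain ⟨r, f, hf, rfl⟩ := hs
        refine (abs_le.mp (val_abs_le hΦ a b c n f)).1.trans ?_
        exact le_csSup (hbd n) ⟨f, hf, rfl⟩
      · refine csSup_le hs ?_
        rintro r ⟨f, _, rfl⟩
        exact (abs_le.mp (val_abs_le hΦ a b c n f)).2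
    · rw [Set.not_nonempty_iff_eq_empty] at hs
      unfold vmax
      rw [hs, Real.sSup_empty]
      norm_num
  · intro ε hε
    obtain ⟨a', b', c', ha', hb', hc', ⟨τ, hτ⟩, hT⟩ := exists_reduced
      (a := a) (b := b) (c := c) (by exact_mod_cast ha) (by exact_mod_cast hb)
      (by exact_mod_cast hc)
    obtain ⟨n0, hn0⟩ := blowup ha' hb' hc' hτ (half_pos hε)
    refine ⟨max n0 3, fun n hn => ?_⟩
    rw [max_le_iff] at hn
    obtain ⟨N0, hN0⟩ := hn0 n hn.1
    refine ⟨N0, fun N hN => ?_⟩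
    obtain ⟨r, ⟨f, hf, rfl⟩, hr⟩ := exists_lt_of_lt_csSup (hne n hn.2)
      (show vmax Φ a b c n - ε / 2 < sSup _ from sub_lt_self _ (half_pos hε))
    obtain ⟨f', hf'1, hf'2⟩ := hN0 N hN Φ hΦ (fun z => f z.toNat)
    have h1 : val Φ a b c N (fun x => f' x) ≤ vmax Φ a b c N := by
      refine le_csSup (hbd N) ⟨fun x => f' x, ?_, rfl⟩
      intro i _
      obtain ⟨x, hx1, hx2, hx3⟩ := hf'1 i
      refine ⟨x.toNat, ⟨by omega, by omega⟩, ?_⟩
      simp only
      rw [Int.toNat_of_nonneg (by omega)]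
      exact hx3
    have h2 : val Φ a b c N (fun x => f' x) = S a' b' c' Φ N f' / (T a' b' c' N 0).card := by
      rw [val_eq, hT]
      congr 1
      unfold S
      rw [hT]
      refine Finset.sum_congr rfl fun y hy => ?_
      have h3 := (mem_T.mp hy).1
      have e0 : (((y 0).toNat : ℕ) : ℤ) = y 0 := Int.toNat_of_nonneg (by have := h3 0; omega)
      have e1 : (((y 1).toNat : ℕ) : ℤ) = y 1 := Int.toNat_of_nonneg (by have := h3 1; omega)
      have e2 : (((y 2).toNat : ℕ) : ℤ) = y 2 := Int.toNat_of_nonneg (by have := h3 2; omega)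
      simp only [e0, e1, e2]
    have h4 : val Φ a b c n f
        = S a' b' c' Φ n (fun z => f z.toNat) / (T a' b' c' n 0).card := by
      rw [val_eq, hT]
      congr 1
      unfold S
      rw [hT]
    rw [← h4, ← h2] at hf'2
    linarith

/-- The rainbow weight. -/
noncomputable def Φrb (i j k : Fin 3) : ℝ := if i ≠ j ∧ i ≠ k ∧ j ≠ k then 1 else 0

/-- The monochromatic weight. -/
noncomputable def Φmono (i j k : Fin 3) : ℝ := if i = j ∧ i = k then 1 else 0

theorem rb_eq (a b c n : ℕ) (f : ℕ → Fin 3) : rb a b c n f = val Φrb a b c n f := by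
  unfold rb val Φrb
  rw [Finset.sum_boole]

theorem mono_eq (a b c n : ℕ) (f : ℕ → Fin 3) : mono a b c n f = val Φmono a b c n f := by
  unfold mono val Φmono
  rw [Finset.sum_boole]

theorem finite_values (Φ : Fin 3 → Fin 3 → Fin 3 → ℝ) (a b c n : ℕ) :
    {r | ∃ f : ℕ → Fin 3, IsColoring n f ∧ r = val Φ a b c n f}.Finite := by
  classical
  set ext : (Fin (n + 1) → Fin 3) → ℕ → Fin 3 := fun g x => if h : x < n + 1 then g ⟨x, h⟩ else 0
    with hext
  refine (Set.finite_range (fun g : Fin (n + 1) → Fin 3 => val Φ a b c n (ext g))).subset ?_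
  rintro r ⟨f, _, rfl⟩
  refine ⟨fun i => f i.1, ?_⟩
  unfold val
  simp only
  congr 1
  refine Finset.sum_congr rfl fun p hp => ?_
  simp only [sols, Finset.mem_filter, Finset.mem_product, Finset.mem_Icc] at hp
  obtain ⟨⟨h1, h2, h3⟩, _⟩ := hp
  simp only [hext]
  rw [dif_pos (by omega), dif_pos (by omega), dif_pos (by omega)]

/-- **Main theorem.** For all positive integers `a`, `b`, `c`, the maximal proportion of rainbow
solutions of `a x + b y = c z` over all 3-colorings of `[n]` converges as `n → ∞`, and the minimal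
proportion of monochromatic solutions converges as `n → ∞`. Moreover, for every `n ≥ 3` the
supremum and the infimum defining them are a maximum and a minimum. -/
theorem result (a b c : ℕ) (ha : 0 < a) (hb : 0 < b) (hc : 0 < c) :
    (∃ L : ℝ, Tendsto (fun n => rbMax a b c n) atTop (𝓝 L)) ∧
    (∃ L : ℝ, Tendsto (fun n => monoMin a b c n) atTop (𝓝 L)) ∧
    (∀ n : ℕ, 3 ≤ n → IsGreatest (rbSet a b c n) (rbMax a b c n) ∧
      IsLeast (monoSet a b c n) (monoMin a b c n)) := by
  have e1 : ∀ n, rbSet a b c n = {r | ∃ f : ℕ → Fin 3, IsColoring n f ∧ r = val Φrb a b c n f} := by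
    intro n
    unfold rbSet
    simp only [rb_eq]
  have e2 : ∀ n, monoSet a b c n
      = {r | ∃ f : ℕ → Fin 3, IsColoring n f ∧ r = val Φmono a b c n f} := by
    intro n
    unfold monoSet
    simp only [mono_eq]
  refine ⟨?_, ?_, ?_⟩
  · have h := vmax_tendsto (Φ := Φrb) (by
      intro i j k
      unfold Φrb
      split_ifs <;> simp) ha hb hc
    have h2 : (fun n => rbMax a b c n) = vmax Φrb a b c := by
      funext n
      unfold rbMax vmax
      rw [e1]
    rw [h2]
    exact h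
  · obtain ⟨L, hL⟩ := vmax_tendsto (Φ := fun i j k => -Φmono i j k) (by
      intro i j k
      unfold Φmono
      split_ifs <;> simp) ha hb hc
    refine ⟨-L, ?_⟩
    have h2 : (fun n => monoMin a b c n) = fun n => -vmax (fun i j k => -Φmono i j k) a b c n := by
      funext n
      unfold monoMin vmax
      rw [Real.sInf_def, e2]
      congr 2
      ext r
      simp only [Set.mem_neg, Set.mem_ofPred_eq]
      refine exists_congr fun f => and_congr_right fun _ => ?_
      have h3 : val (fun i j k => -Φmono i j k) a b c n f = -val Φmono a b c n f := by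
        unfold val
        rw [Finset.sum_neg_distrib, neg_div]
      rw [h3]
      constructor
      · intro h; linarith
      · intro h; linarith
    rw [h2]
    exact hL.neg
  · intro n hn
    obtain ⟨f, hf⟩ := exists_coloring hn
    constructor
    · have hfin : (rbSet a b c n).Finite := by rw [e1]; exact finite_values _ a b c n
      have hne : (rbSet a b c n).Nonempty := ⟨_, f, hf, rfl⟩
      exact ⟨hne.csSup_mem hfin, fun r hr => le_csSup hfin.bddAbove hr⟩
    · have hfin : (monoSet a b c n).Finite := by rw [e2]; exact finite_values _ a b c n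
      have hne : (monoSet a b c n).Nonempty := ⟨_, f, hf, rfl⟩
      exact ⟨hne.csInf_mem hfin, fun r hr => csInf_le hfin.bddBelow hr⟩

end Pool.Agent.Results.MP_0bef22_co.Limits
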